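import Pool.Agent.helper68.AM.SpecX

/-!
Project sl, module XF: counting curves by indices. The classes of the pairs `(φ a, φ b)` map onto
the orbit of `γ` with fibres of the same cardinality.
-/

set_option autoImplicit false

namespace AM

open Pool.Agent.helper72.Sq Matrix

/-- simultaneous conjugacy as a setoid -/
def XF_setoid : Setoid (F2 × F2) where
  r := PConj
  iseqv := by
    refine ⟨fun x => ⟨1, by simp, by simp⟩, ?_, ?_⟩
    · rintro x y ⟨c, h1, h2⟩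
      exact ⟨c⁻¹, by rw [h1]; group, by rw [h2]; group⟩
    · rintro x y z ⟨c, h1, h2⟩ ⟨d, h3, h4⟩
      exact ⟨d * c, by rw [h3, h1]; group, by rw [h4, h2]; group⟩

/-- classes of pairs -/
def XF_Q : Type := Quotient XF_setoid

/-- the class of a pair -/
def XF_mk (x : F2 × F2) : XF_Q := Quotient.mk XF_setoid x

lemma XF_mk_eq (x y : F2 × F2) : XF_mk x = XF_mk y ↔ PConj x y :=
  Quotient.eq (r := XF_setoid)

lemma XF_refl (x : F2 × F2) : PConj x x := XF_setoid.iseqv.refl x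

lemma XF_ev_conj {x y : F2 × F2} {c : F2} (h1 : y.1 = c * x.1 * c⁻¹) (h2 : y.2 = c * x.2 * c⁻¹)
    (γ : F2) : ev y γ = c * ev x γ * c⁻¹ := by
  have h : ev y = (MulAut.conj c).toMonoidHom.comp (ev x) := by
    apply F2_hom_ext
    · simp [ev, h1]
    · simp [ev, h2]
  rw [h]
  simp

/-- the curve of a class -/
def XF_pi (γ : F2) : XF_Q → Curve :=
  Quotient.lift (fun x => cl (ev x γ)) (by
    rintro x y ⟨c, h1, h2⟩
    show cl (ev x γ) = cl (ev y γ)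
    rw [XF_ev_conj h1 h2, cl_conj])

lemma XF_pi_mk (γ : F2) (x : F2 × F2) : XF_pi γ (XF_mk x) = cl (ev x γ) := rfl

/-- the action on classes -/
def XF_act (ψ : MulAut F2) : XF_Q → XF_Q :=
  Quotient.map (sa := XF_setoid) (sb := XF_setoid) (fun x => (ψ x.1, ψ x.2)) (by
    rintro x y ⟨c, h1, h2⟩
    exact ⟨ψ c, by simp [h1], by simp [h2]⟩)

lemma XF_act_mk (ψ : MulAut F2) (x : F2 × F2) : XF_act ψ (XF_mk x) = XF_mk (ψ x.1, ψ x.2) := rfl

lemma XF_act_act (φ ψ : MulAut F2) (ξ : XF_Q) : XF_act φ (XF_act ψ ξ) = XF_act (φ * ψ) ξ := by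
  induction ξ using Quotient.inductionOn with
  | h x => rfl

lemma XF_act_one (ξ : XF_Q) : XF_act 1 ξ = ξ := by
  induction ξ using Quotient.inductionOn with
  | h x => rfl

lemma XF_ev_map (ψ : MulAut F2) (x : F2 × F2) (γ : F2) : ev (ψ x.1, ψ x.2) γ = ψ (ev x γ) := by
  have h : ev (ψ x.1, ψ x.2) = ψ.toMonoidHom.comp (ev x) := by
    apply F2_hom_ext
    · simp [ev]
    · simp [ev]
  rw [h]
  simp

lemma XF_pi_act (γ : F2) (ψ : MulAut F2) (ξ ξ' : XF_Q) (h : XF_pi γ ξ = XF_pi γ ξ') :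
    XF_pi γ (XF_act ψ ξ) = XF_pi γ (XF_act ψ ξ') := by
  induction ξ using Quotient.inductionOn with
  | h x =>
    induction ξ' using Quotient.inductionOn with
    | h y =>
      have h' : cl (ev x γ) = cl (ev y γ) := h
      show cl (ev (ψ x.1, ψ x.2) γ) = cl (ev (ψ y.1, ψ y.2) γ)
      rw [XF_ev_map, XF_ev_map]
      exact cl_map ψ.toMonoidHom h'

/-- the classes of the mapping classes -/
def XF_X : Set XF_Q := {ξ | ∃ φ ∈ MCG, ξ = XF_mk (φ ga, φ gb)}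

lemma XF_ev_phi (φ : MulAut F2) (γ : F2) : ev (φ ga, φ gb) γ = φ γ := by
  have h := XF_ev_map φ (ga, gb) γ
  have h1 : ev (ga, gb) = MonoidHom.id F2 := by
    apply F2_hom_ext <;> simp [ev]
  simp only at h
  rw [h, h1]
  rfl

/-- the fibres -/
def XF_F (γ : F2) (c : Curve) : Set XF_Q := {ξ | ξ ∈ XF_X ∧ XF_pi γ ξ = c}

lemma XF_act_X {φ : MulAut F2} (hφ : φ ∈ MCG) {ξ : XF_Q} (h : ξ ∈ XF_X) : XF_act φ ξ ∈ XF_X := by
  obtain ⟨ψ, hψ, rfl⟩ := h
  exact ⟨φ * ψ, MCG.mul_mem hφ hψ, rfl⟩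

lemma XF_fibre (γ : F2) {φ : MulAut F2} (hφ : φ ∈ MCG) :
    XF_F γ (cl (φ γ)) = XF_act φ '' XF_F γ (cl γ) := by
  have hbase : XF_pi γ (XF_mk (ga, gb)) = cl γ := by
    rw [XF_pi_mk]
    have := XF_ev_phi 1 γ
    simpa using congrArg cl this
  have hbase' : XF_pi γ (XF_mk (φ ga, φ gb)) = cl (φ γ) := by
    rw [XF_pi_mk, XF_ev_phi]
  ext ξ
  constructor
  · rintro ⟨hX, hξ⟩
    refine ⟨XF_act φ⁻¹ ξ, ⟨XF_act_X (MCG.inv_mem hφ) hX, ?_⟩, ?_⟩
    · rw [← hbase, XF_pi_act γ φ⁻¹ ξ (XF_mk (φ ga, φ gb)) (by rw [hξ, hbase']), XF_act_mk]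
      simp
    · rw [XF_act_act, mul_inv_cancel, XF_act_one]
  · rintro ⟨η, ⟨hX, hη⟩, rfl⟩
    refine ⟨XF_act_X hφ hX, ?_⟩
    rw [XF_pi_act γ φ η (XF_mk (ga, gb)) (by rw [hη, hbase]), XF_act_mk]
    exact hbase'

lemma XF_act_inj (φ : MulAut F2) : Function.Injective (XF_act φ) := by
  intro ξ η h
  have h2 := congrArg (XF_act φ⁻¹) h
  rwa [XF_act_act, XF_act_act, inv_mul_cancel, XF_act_one, XF_act_one] at h2

theorem XF (hN : XN_stmt) (hM : XM_stmt) (hU : XU_stmt) : XF_stmt := by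
  classical
  intro ρ γ hfin
  -- the indices cover the classes
  have hκX : ∀ i : Ix, XF_mk (pr i) ∈ XF_X := by
    intro i
    obtain ⟨φ, hφ, h⟩ := hM i
    exact ⟨φ, hφ, (XF_mk_eq _ _).2 h⟩
  have hκs : ∀ ξ ∈ XF_X, ∃ i : Ix, XF_mk (pr i) = ξ := by
    rintro ξ ⟨φ, hφ, rfl⟩
    obtain ⟨i, hi⟩ := hN φ hφ
    exact ⟨i, (XF_mk_eq _ _).2 hi⟩
  have hcv : ∀ i : Ix, cv γ i = XF_pi γ (XF_mk (pr i)) := fun i => rfl
  -- sublevels in the set of classes
  have hB : ∀ R, {ξ | ξ ∈ XF_X ∧ cLen ρ (XF_pi γ ξ) ≤ R} =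
      (fun i => XF_mk (pr i)) '' {i : Ix | cLen ρ (cv γ i) ≤ R} := by
    intro R
    ext ξ
    constructor
    · rintro ⟨hX, hξ⟩
      obtain ⟨i, rfl⟩ := hκs ξ hX
      exact ⟨i, hξ, rfl⟩
    · rintro ⟨i, hi, rfl⟩
      exact ⟨hκX i, hi⟩
  have hBfin : ∀ R, {ξ | ξ ∈ XF_X ∧ cLen ρ (XF_pi γ ξ) ≤ R}.Finite := by
    intro R
    rw [hB R]
    exact (hfin R).image _
  -- the orbit
  have horb : ∀ x : orb γ, ∃ ξ ∈ XF_X, XF_pi γ ξ = (x : Curve) := by
    rintro ⟨x, φ, hφ, rfl⟩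
    exact ⟨XF_mk (φ ga, φ gb), ⟨φ, hφ, rfl⟩, by rw [XF_pi_mk, XF_ev_phi]⟩
  have hmem : ∀ ξ ∈ XF_X, XF_pi γ ξ ∈ orb γ := by
    rintro ξ ⟨φ, hφ, rfl⟩
    exact ⟨φ, hφ, by rw [XF_pi_mk, XF_ev_phi]⟩
  have hOim : ∀ R, (Subtype.val '' {x : orb γ | cLen ρ x ≤ R} : Set Curve) =
      XF_pi γ '' {ξ | ξ ∈ XF_X ∧ cLen ρ (XF_pi γ ξ) ≤ R} := by
    intro R
    ext c
    constructor
    · rintro ⟨x, hx, rfl⟩
      obtain ⟨ξ, hξ, h⟩ := horb x
      refine ⟨ξ, ⟨hξ, ?_⟩, h⟩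
      rw [h]
      exact hx
    · rintro ⟨ξ, ⟨hξ, h⟩, rfl⟩
      exact ⟨⟨_, hmem ξ hξ⟩, h, rfl⟩
  have hOfin : ∀ R, {x : orb γ | cLen ρ x ≤ R}.Finite := by
    intro R
    have : (Subtype.val '' {x : orb γ | cLen ρ x ≤ R} : Set Curve).Finite := by
      rw [hOim R]
      exact (hBfin R).image _
    exact this.of_finite_image Subtype.val_injective.injOn
  -- the fibres
  have hFfin : (XF_F γ (cl γ)).Finite := by
    refine (hBfin (cLen ρ (cl γ))).subset ?_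
    rintro ξ ⟨hX, h⟩
    exact ⟨hX, by rw [h]⟩
  have hFcard : ∀ c ∈ orb γ, (XF_F γ c).ncard = (XF_F γ (cl γ)).ncard := by
    rintro c ⟨φ, hφ, rfl⟩
    rw [XF_fibre γ hφ]
    exact Set.ncard_image_of_injective _ (XF_act_inj φ)
  refine ⟨(XF_F γ (cl γ)).ncard, ?_, hOfin, ?_⟩
  · rw [Nat.one_le_iff_ne_zero, ← Nat.pos_iff_ne_zero, Set.ncard_pos hFfin]
    refine ⟨XF_mk (ga, gb), ⟨1, MCG.one_mem, rfl⟩, ?_⟩
    rw [XF_pi_mk]
    have := XF_ev_phi 1 γ
    simpa using congrArg cl this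
  · intro R
    -- number of classes
    have hcount : {ξ | ξ ∈ XF_X ∧ cLen ρ (XF_pi γ ξ) ≤ R}.ncard =
        (XF_F γ (cl γ)).ncard * {x : orb γ | cLen ρ x ≤ R}.ncard := by
      rw [← Set.ncard_image_of_injective {x : orb γ | cLen ρ x ≤ R} Subtype.val_injective, hOim R]
      rw [Set.ncard_eq_toFinset_card _ (hBfin R), Set.ncard_eq_toFinset_card _ ((hBfin R).image _)]
      rw [Finset.card_eq_sum_card_fiberwise (f := XF_pi γ) (t := ((hBfin R).image (XF_pi γ)).toFinset)]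
      · rw [Finset.sum_const_nat (m := (XF_F γ (cl γ)).ncard), mul_comm]
        intro c hc
        rw [Set.Finite.mem_toFinset] at hc
        obtain ⟨ξ, ⟨hξ, h⟩, rfl⟩ := hc
        rw [← hFcard _ (hmem ξ hξ), ← Set.ncard_coe_finset]
        congr 1
        ext η
        simp only [Finset.coe_filter, Set.Finite.mem_toFinset, Set.mem_ofPred_eq, XF_F]
        constructor
        · rintro ⟨⟨h1, h2⟩, h3⟩
          exact ⟨h1, h3⟩
        · rintro ⟨h1, h3⟩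
          exact ⟨⟨h1, by rw [h3]; exact h⟩, h3⟩
      · intro ξ hξ
        rw [Finset.mem_coe, Set.Finite.mem_toFinset] at hξ ⊢
        exact ⟨ξ, hξ, rfl⟩
    -- comparison with the indices
    have hle : {ξ | ξ ∈ XF_X ∧ cLen ρ (XF_pi γ ξ) ≤ R}.ncard ≤
        {i : Ix | cLen ρ (cv γ i) ≤ R}.ncard := by
      rw [hB R]
      exact Set.ncard_image_le (hfin R)
    have hroot : {i : Ix | i.2.1 = []}.ncard ≤ 8 := by
      have : {i : Ix | i.2.1 = []} = (fun x : Bool × Fin 4 => ((x.1, [], x.2) : Ix)) '' Set.univ := by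
        ext ⟨ε, w, τ⟩
        constructor
        · intro h
          have hw : w = [] := h
          subst hw
          exact ⟨(ε, τ), trivial, rfl⟩
        · rintro ⟨x, -, h⟩
          have := congrArg (fun i : Ix => i.2.1) h
          exact this.symm
      rw [this]
      refine (Set.ncard_image_le Set.finite_univ).trans ?_
      rw [Set.ncard_univ]
      simp
    have hle2 : {i : Ix | cLen ρ (cv γ i) ≤ R}.ncard ≤
        {ξ | ξ ∈ XF_X ∧ cLen ρ (XF_pi γ ξ) ≤ R}.ncard + 8 := by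
      have h1 : ({i : Ix | cLen ρ (cv γ i) ≤ R} \ {i : Ix | i.2.1 = []}).ncard ≤
          {ξ | ξ ∈ XF_X ∧ cLen ρ (XF_pi γ ξ) ≤ R}.ncard := by
        refine Set.ncard_le_ncard_of_injOn (fun i => XF_mk (pr i)) ?_ ?_ (hBfin R)
        · rintro i ⟨hi, -⟩
          rw [hB R]
          exact ⟨i, hi, rfl⟩
        · rintro i ⟨hi, hi'⟩ j ⟨hj, hj'⟩ hij
          rcases hU i j ⟨pr j, (XF_mk_eq _ _).1 hij, XF_refl _⟩ with h | h
          · exact h
          · exact absurd h.1 hi'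
      have h2 : {i : Ix | cLen ρ (cv γ i) ≤ R} ⊆
          ({i : Ix | cLen ρ (cv γ i) ≤ R} \ {i : Ix | i.2.1 = []}) ∪ {i : Ix | i.2.1 = []} := by
        intro i hi
        by_cases h : i.2.1 = []
        · exact Or.inr h
        · exact Or.inl ⟨hi, h⟩
      have hrf : {i : Ix | i.2.1 = []}.Finite := by
        have : {i : Ix | i.2.1 = []} ⊆ (fun x : Bool × Fin 4 => ((x.1, [], x.2) : Ix)) '' Set.univ := by
          rintro ⟨ε, w, τ⟩ h
          have hw : w = [] := h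
          subst hw
          exact ⟨(ε, τ), trivial, rfl⟩
        exact (Set.finite_univ.image _).subset this
      refine (Set.ncard_le_ncard h2 (((hfin R).subset Set.sdiff_subset).union hrf)).trans ?_
      refine (Set.ncard_union_le _ _).trans ?_
      omega
    rw [hcount] at hle hle2
    rw [abs_le]
    have e1 : ((XF_F γ (cl γ)).ncard : ℝ) * ({x : orb γ | cLen ρ x ≤ R}.ncard : ℝ) ≤
        ({i : Ix | cLen ρ (cv γ i) ≤ R}.ncard : ℝ) := by exact_mod_cast hle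
    have e2 : ({i : Ix | cLen ρ (cv γ i) ≤ R}.ncard : ℝ) ≤
        ((XF_F γ (cl γ)).ncard : ℝ) * ({x : orb γ | cLen ρ x ≤ R}.ncard : ℝ) + 8 := by
      exact_mod_cast hle2
    constructor <;> linarith

end AM
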